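import Pool.Agent.Y517.NT.An

/-! NT2-KER: the set where an analytic family of linear maps is not injective is the zero set of an
analytic function. -/

set_option autoImplicit false
set_option linter.all false

open Set Filter Topology

namespace Pool.Agent.Y849.NT

open Pool.Agent.Y517.NT

theorem analytic_det {F : Type} [NormedAddCommGroup F] [NormedSpace ℝ F] {V : Set F} {m : ℕ}
    {N : F → Matrix (Fin m) (Fin m) ℝ} (h : ∀ i j, AnalyticOnNhd ℝ (fun y => N y i j) V) :
    AnalyticOnNhd ℝ (fun y => (N y).det) V := by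
  have e : (fun y => (N y).det) = fun y => ∑ σ : Equiv.Perm (Fin m),
      ((Equiv.Perm.sign σ : ℤ) : ℝ) * ∏ i, N y (σ i) i := by
    funext y
    exact Matrix.det_apply' (N y)
  rw [e]
  refine Finset.analyticOnNhd_fun_sum _ fun σ _ => ?_
  refine analyticOnNhd_const.mul ?_
  exact Finset.analyticOnNhd_fun_prod _ fun i _ => h _ _

theorem t_KER : S_KER := by
  intro F H G _ _ _ _ _ _ _ _ V A hA
  let b := Module.finBasis ℝ H
  let c := Module.finBasis ℝ G
  let M : F → Matrix (Fin (Module.finrank ℝ G)) (Fin (Module.finrank ℝ H)) ℝ := fun y =>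
    LinearMap.toMatrix b c (A y : H →ₗ[ℝ] G)
  have hM : ∀ i j, AnalyticOnNhd ℝ (fun y => M y i j) V := by
    intro i j
    have h1 := (((c.coord i).toContinuousLinearMap).comp
      (ContinuousLinearMap.apply ℝ G (b j))).comp_analyticOnNhd hA
    have e : (fun y => M y i j) = (fun y => (((c.coord i).toContinuousLinearMap).comp
      (ContinuousLinearMap.apply ℝ G (b j))) (A y)) := by
      funext y
      show LinearMap.toMatrix b c (A y : H →ₗ[ℝ] G) i j = _
      rw [LinearMap.toMatrix_apply]
      rfl
    rw [e]
    exact h1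
  refine ⟨fun y => ((M y).transpose * M y).det, analytic_det fun i j => ?_, fun y => ?_⟩
  · have e : (fun y => ((M y).transpose * M y) i j) = fun y => ∑ k, M y k i * M y k j := by
      funext y
      rfl
    rw [e]
    exact Finset.analyticOnNhd_fun_sum _ fun k _ => (hM k i).mul (hM k j)
  · have h1 : ∀ v : Fin (Module.finrank ℝ H) → ℝ,
        ((M y).transpose * M y).mulVec v = 0 ↔ (M y).mulVec v = 0 := by
      intro v
      have := Matrix.conjTranspose_mul_self_mulVec_eq_zero (M y) v
      rwa [Matrix.conjTranspose_eq_transpose_of_trivial] at this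
    rw [← Matrix.exists_mulVec_eq_zero_iff]
    constructor
    · rintro ⟨v, hv, h2⟩
      rw [h1] at h2
      refine ⟨b.equivFun.symm v, fun h3 => hv ?_, ?_⟩
      · rwa [LinearEquiv.map_eq_zero_iff] at h3
      · have h3 := LinearMap.toMatrix_mulVec_repr b c (A y : H →ₗ[ℝ] G) (b.equivFun.symm v)
        have h4 : (b.repr (b.equivFun.symm v) : Fin (Module.finrank ℝ H) → ℝ) = v :=
          b.equivFun.apply_symm_apply v
        rw [h4] at h3
        have h5 : (c.repr (A y (b.equivFun.symm v)) : Fin (Module.finrank ℝ G) → ℝ) = 0 :=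
          h3.symm.trans h2
        apply c.repr.injective
        rw [map_zero]
        exact Finsupp.coe_eq_zero.1 h5
    · rintro ⟨v, hv, h2⟩
      refine ⟨b.repr v, fun h3 => hv ?_, ?_⟩
      · apply b.repr.injective
        rw [map_zero]
        exact Finsupp.coe_eq_zero.1 h3
      · rw [h1]
        have h3 := LinearMap.toMatrix_mulVec_repr b c (A y : H →ₗ[ℝ] G) v
        refine h3.trans ?_
        show (c.repr (A y v) : Fin (Module.finrank ℝ G) → ℝ) = 0
        rw [h2, map_zero]
        rfl

end Pool.Agent.Y849.NT
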